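import Mathlib

namespace Pool.Agent.H.MP_671186_gt
open Set

noncomputable def w (a : ℤ) (s : ℝ) : ℝ := (s - a - 1 / 4) * (a + 3 / 4 - s)

noncomputable def G (a : ℤ) (p : ℝ × ℝ) : ℝ × ℝ := (p.2, (w a p.1)⁻¹)

def P (n k : ℤ) : List ℤ → Set (ℝ × ℝ)
  | [] => {p | |p.1 - n| ≤ 1 / 4 ∧ k ≤ p.2 ∧ p.2 < k + 1}
  | a :: l => {p | 0 < w a p.1 ∧ G a p ∈ P n k l}

def Q (n k : ℤ) : List ℤ → Set (ℝ × ℝ)
  | [] => {p | |p.1 - n| ≤ 1 / 4 ∧ k ≤ p.2 ∧ p.2 ≤ k + 1}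
  | a :: l => {p | 0 < w a p.1 ∧ G a p ∈ Q n k l}

theorem w_pos {a : ℤ} {s : ℝ} : 0 < w a s ↔ a + 1 / 4 < s ∧ s < a + 3 / 4 := by
  unfold w
  constructor
  · intro h
    constructor <;> nlinarith
  · intro h
    exact mul_pos (by linarith [h.1]) (by linarith [h.2])

theorem cont_w (a : ℤ) : Continuous (w a) := by unfold w; fun_prop

theorem P_sub (n k : ℤ) : ∀ l, P n k l ⊆ Q n k l
  | [] => fun _ h => ⟨h.1, h.2.1, h.2.2.le⟩
  | _ :: l => fun _ h => ⟨h.1, P_sub n k l h.2⟩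

theorem Q_bdd (n k : ℤ) : ∀ l, ∃ M : ℝ, ∀ p ∈ Q n k l, p.1 ≤ M ∧ p.2 ≤ M
  | [] => ⟨max (n + 1) (k + 1), fun p h => ⟨le_max_of_le_left (by linarith [(abs_le.mp h.1).2]),
      le_max_of_le_right h.2.2⟩⟩
  | a :: l => by
    obtain ⟨M, hM⟩ := Q_bdd n k l
    exact ⟨max (a + 1) M, fun p h => ⟨le_max_of_le_left (by linarith [(w_pos.mp h.1).2]),
      le_max_of_le_right (hM _ h.2).1⟩⟩

theorem contAt_G {a : ℤ} {p : ℝ × ℝ} (h : 0 < w a p.1) : ContinuousAt (G a) p :=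
  continuousAt_snd.prodMk (((cont_w a).comp continuous_fst).continuousAt.inv₀ h.ne')

theorem Q_closed (n k : ℤ) : ∀ l, IsClosed (Q n k l)
  | [] => (isClosed_le (f := fun p : ℝ × ℝ => |p.1 - n|) (by fun_prop) continuous_const).inter
      ((isClosed_le continuous_const continuous_snd).inter (isClosed_le continuous_snd continuous_const))
  | a :: l => by
    obtain ⟨M, hM⟩ := Q_bdd n k l
    have e : Q n k (a :: l) = {p | (max M 1)⁻¹ ≤ w a p.1} ∩ G a ⁻¹' Q n k l := by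
      ext p
      have h1 : (0 : ℝ) < max M 1 := lt_max_of_lt_right one_pos
      refine ⟨fun h => ⟨?_, h.2⟩, fun h => ⟨lt_of_lt_of_le (inv_pos.mpr h1) h.1, h.2⟩⟩
      exact inv_le_of_inv_le₀ h.1 (le_max_of_le_left (hM _ h.2).2)
    rw [e]
    refine ContinuousOn.preimage_isClosed_of_isClosed (fun p hp => (contAt_G ?_).continuousWithinAt)
      (isClosed_le continuous_const ((cont_w a).comp continuous_fst)) (Q_closed n k l)
    exact lt_of_lt_of_le (inv_pos.mpr (lt_max_of_lt_right one_pos)) hp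

theorem cl_P (n k : ℤ) (l : List ℤ) : closure (P n k l) ⊆ Q n k l :=
  closure_minimal (P_sub n k l) (Q_closed n k l)

theorem int_eq {a b : ℤ} (h : (a : ℝ) < b + 1) (h' : (b : ℝ) < a + 1) : a = b := by
  have h1 : a < b + 1 := by exact_mod_cast h
  have h2 : b < a + 1 := by exact_mod_cast h'
  omega

theorem not_both {n a : ℤ} {s : ℝ} (h : |s - n| ≤ 1 / 4) (h' : 0 < w a s) : False := by
  obtain ⟨h1, h2⟩ := abs_le.mp h
  obtain ⟨h3, h4⟩ := w_pos.mp h'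
  have h5 : a < n := by exact_mod_cast (show (a : ℝ) < n by linarith)
  have h6 : n < a + 1 := by exact_mod_cast (show (n : ℝ) < a + 1 by linarith)
  omega

theorem w_uniq {a b : ℤ} {s : ℝ} (h : 0 < w a s) (h' : 0 < w b s) : a = b := by
  obtain ⟨h1, h2⟩ := w_pos.mp h
  obtain ⟨h3, h4⟩ := w_pos.mp h'
  exact int_eq (by linarith) (by linarith)

theorem Q_uniq {n k n' k' : ℤ} : ∀ {l l' : List ℤ} {p : ℝ × ℝ}, p ∈ Q n k l → p ∈ Q n' k' l' →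
    l = l' ∧ n = n' ∧ k ≤ k' + 1
  | [], [], _, h, h' => ⟨rfl, int_eq (by linarith [abs_le.mp h.1, abs_le.mp h'.1])
      (by linarith [abs_le.mp h.1, abs_le.mp h'.1]), by exact_mod_cast h.2.1.trans h'.2.2⟩
  | [], _ :: _, _, h, h' => (not_both h.1 h'.1).elim
  | _ :: _, [], _, h, h' => (not_both h'.1 h.1).elim
  | a :: l, b :: l', _, h, h' => by
    obtain rfl := w_uniq h.1 h'.1
    obtain ⟨rfl, h2⟩ := Q_uniq h.2 h'.2
    exact ⟨rfl, h2⟩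

theorem P_uniq {n k k' : ℤ} : ∀ {l : List ℤ} {p : ℝ × ℝ}, p ∈ P n k l → p ∈ P n k' l → k = k'
  | [], _, h, h' => int_eq (by linarith [h.2.1, h'.2.2]) (by linarith [h'.2.1, h.2.2])
  | _ :: _, _, h, h' => P_uniq h.2 h'.2

def A : Set (ℝ × ℝ) := {p | ∀ n k l, p ∉ P n k l}

theorem A_step {p : ℝ × ℝ} (h : p ∈ A) : ∃ a, 0 < w a p.1 ∧ G a p ∈ A := by
  have h1 : 0 < w ⌊p.1⌋ p.1 := by
    have f1 := Int.floor_le p.1
    have f2 := Int.lt_floor_add_one p.1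
    have a1 := h ⌊p.1⌋ ⌊p.2⌋ []
    have a2 := h (⌊p.1⌋ + 1) ⌊p.2⌋ []
    refine w_pos.mpr ⟨not_le.mp fun c => a1 ⟨abs_le.mpr ⟨by linarith, by linarith⟩,
      Int.floor_le _, Int.lt_floor_add_one _⟩, not_le.mp fun c => a2 ⟨abs_le.mpr
        ⟨by push_cast; linarith, by push_cast; linarith⟩, Int.floor_le _, Int.lt_floor_add_one _⟩⟩
  exact ⟨_, h1, fun n k l hp => h n k (_ :: l) ⟨h1, hp⟩⟩

theorem A_snd {p : ℝ × ℝ} (h : p ∈ A) : ∃ b, 0 < w b p.2 := by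
  obtain ⟨a, -, h1⟩ := A_step h
  obtain ⟨b, h2, -⟩ := A_step h1
  exact ⟨b, h2⟩

theorem clA {n k : ℤ} : ∀ {l : List ℤ} {p : ℝ × ℝ}, p ∈ closure A → p ∈ Q n k l →
    p ∈ Q n (k + 1) l → False
  | [], p, h, h1, h2 => by
    obtain ⟨q, hq, hd⟩ := Metric.mem_closure_iff.mp h (1 / 4) (by norm_num)
    obtain ⟨b, hb⟩ := A_snd hq
    have e : p.2 = (k + 1 : ℤ) := le_antisymm (by push_cast; exact h1.2.2) h2.2.1
    rw [Prod.dist_eq] at hd
    have := (le_max_right _ _).trans_lt hd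
    rw [dist_comm, Real.dist_eq, e] at this
    exact not_both this.le hb
  | a :: l, p, h, h1, h2 => by
    refine clA (l := l) (p := G a p) ?_ h1.2 h2.2
    have ho : IsOpen {q : ℝ × ℝ | 0 < w a q.1} :=
      isOpen_lt continuous_const ((cont_w a).comp continuous_fst)
    refine closure_mono ?_ (mem_closure_image (contAt_G h1.1) (ho.inter_closure ⟨h1.1, h⟩))
    rintro _ ⟨q, ⟨q1, q2⟩, rfl⟩
    obtain ⟨b, hb, hb'⟩ := A_step q2
    rwa [w_uniq q1 hb]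

def B (a b : ℤ) : Set (ℝ × ℝ) := {p | p ∈ A ∧ 0 < w a p.1 ∧ 0 < w b p.2}

theorem cl_B {a b : ℤ} {p : ℝ × ℝ} (h : p ∈ closure (B a b)) :
    0 ≤ w a p.1 ∧ 0 ≤ w b p.2 :=
  closure_minimal (t := {p : ℝ × ℝ | 0 ≤ w a p.1 ∧ 0 ≤ w b p.2}) (fun _ h => ⟨h.2.1.le, h.2.2.le⟩)
    ((isClosed_le continuous_const ((cont_w a).comp continuous_fst)).inter
      (isClosed_le continuous_const ((cont_w b).comp continuous_snd))) h

theorem w_uniq' {a b : ℤ} {s : ℝ} (h : 0 ≤ w a s) (h' : 0 ≤ w b s) : a = b := by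
  have k : ∀ c : ℤ, 0 ≤ w c s → c ≤ s ∧ s < c + 1 := fun c hc => by
    unfold w at hc
    constructor <;> nlinarith
  exact int_eq (by linarith [k a h, k b h']) (by linarith [k a h, k b h'])

def X : (ℤ × ℤ × List ℤ) ⊕ (ℤ × ℤ) → Set (ℝ × ℝ)
  | .inl i => P i.1 i.2.1 i.2.2
  | .inr i => B i.1 i.2

theorem X_cover (p : ℝ × ℝ) : ∃ i, p ∈ X i := by
  by_cases h : p ∈ A
  · obtain ⟨a, ha, -⟩ := A_step h
    obtain ⟨b, hb⟩ := A_snd h
    exact ⟨.inr (a, b), h, ha, hb⟩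
  · simp only [A, mem_setOf_eq, not_forall, not_not] at h
    obtain ⟨n, k, l, h⟩ := h
    exact ⟨.inl (n, k, l), h⟩

theorem X_uniq {p : ℝ × ℝ} : ∀ {i j}, p ∈ X i → p ∈ X j → i = j
  | .inl (n, k, l), .inl (n', k', l'), h, h' => by
    change p ∈ P n k l at h
    change p ∈ P n' k' l' at h'
    obtain ⟨rfl, rfl, -⟩ := Q_uniq (P_sub _ _ _ h) (P_sub _ _ _ h')
    rw [P_uniq h h']
  | .inl _, .inr _, h, h' => (h'.1 _ _ _ h).elim
  | .inr _, .inl _, h, h' => (h.1 _ _ _ h').elim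
  | .inr (a, b), .inr (a', b'), h, h' => by
    rw [show a = a' from w_uniq h.2.1 h'.2.1, show b = b' from w_uniq h.2.2 h'.2.2]

theorem P_fst {n k : ℤ} : ∀ {l : List ℤ} {p q : ℝ × ℝ}, p ∈ P n k l → q ∈ P n k l → p.1 - q.1 < 1
  | [], _, _, h, h' => by linarith [abs_le.mp h.1, abs_le.mp h'.1]
  | _ :: _, _, _, h, h' => by linarith [w_pos.mp h.1, w_pos.mp h'.1]

theorem P_snd {n k : ℤ} : ∀ {l : List ℤ} {p q : ℝ × ℝ}, p ∈ P n k l → q ∈ P n k l → p.2 - q.2 < 1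
  | [], _, _, h, h' => by linarith [h.2.2, h'.2.1]
  | _ :: _, _, _, h, h' => P_fst h.2 h'.2

theorem X_half {p q : ℝ × ℝ} : ∀ {i}, p ∈ X i → q ∈ X i → p.1 - q.1 < 1 ∧ p.2 - q.2 < 1
  | .inl _, h, h' => ⟨P_fst h h', P_snd h h'⟩
  | .inr _, h, h' => ⟨by linarith [w_pos.mp h.2.1, w_pos.mp h'.2.1],
      by linarith [w_pos.mp h.2.2, w_pos.mp h'.2.2]⟩

theorem X_dist {p q : ℝ × ℝ} {i} (h : p ∈ X i) (h' : q ∈ X i) : dist p q < 1 := by
  rw [Prod.dist_eq, Real.dist_eq, Real.dist_eq, max_lt_iff, abs_sub_lt_iff, abs_sub_lt_iff]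
  exact ⟨⟨(X_half h h').1, (X_half h' h).1⟩, (X_half h h').2, (X_half h' h).2⟩

theorem X_two (p : ℝ × ℝ) : ∃ i j, ∀ m, p ∈ closure (X m) → m = i ∨ m = j := by
  by_cases h : ∃ n k l, p ∈ Q n k l
  · obtain ⟨n, k, l, h⟩ := h
    have key : ∃ k, p ∈ Q n k l ∧ p ∉ Q n (k - 1) l := by
      by_cases h2 : p ∈ Q n (k - 1) l
      · exact ⟨k - 1, h2, fun h3 => by have := (Q_uniq h h3).2.2; omega⟩
      · exact ⟨k, h, h2⟩
    obtain ⟨k, h, h2⟩ := key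
    have two : ∀ n' k' l', p ∈ Q n' k' l' → l' = l ∧ n' = n ∧ (k' = k ∨ k' = k + 1) :=
      fun n' k' l' h' => by
        obtain ⟨rfl, rfl, h3⟩ := Q_uniq h' h
        have h4 := (Q_uniq h h').2.2
        have h5 : k' ≠ k - 1 := fun e => h2 (e ▸ h')
        exact ⟨rfl, rfl, by omega⟩
    by_cases hb : ∃ a b, p ∈ closure (B a b)
    · obtain ⟨a, b, hb⟩ := hb
      refine ⟨.inl (n, k, l), .inr (a, b), ?_⟩
      rintro (⟨n', k', l'⟩ | ⟨a', b'⟩) hm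
      · have h' := cl_P _ _ _ hm
        obtain ⟨rfl, rfl, rfl | rfl⟩ := two _ _ _ h'
        · exact .inl rfl
        · exact (clA (closure_mono (fun _ h => h.1) hb) h h').elim
      · rw [show a' = a from w_uniq' (cl_B hm).1 (cl_B hb).1,
          show b' = b from w_uniq' (cl_B hm).2 (cl_B hb).2]
        exact .inr rfl
    · refine ⟨.inl (n, k, l), .inl (n, k + 1, l), ?_⟩
      rintro (⟨n', k', l'⟩ | ⟨a', b'⟩) hm
      · obtain ⟨rfl, rfl, rfl | rfl⟩ := two _ _ _ (cl_P _ _ _ hm)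
        exacts [.inl rfl, .inr rfl]
      · exact (hb ⟨_, _, hm⟩).elim
  · obtain ⟨i, hi⟩ := X_cover p
    refine ⟨i, i, ?_⟩
    rcases i with ⟨n, k, l⟩ | ⟨a, b⟩
    · exact (h ⟨_, _, _, P_sub _ _ _ hi⟩).elim
    rintro (⟨n', k', l'⟩ | ⟨a', b'⟩) hm
    · exact (h ⟨_, _, _, cl_P _ _ _ hm⟩).elim
    · rw [show a' = a from w_uniq' (cl_B hm).1 hi.2.1.le,
        show b' = b from w_uniq' (cl_B hm).2 hi.2.2.le]
      exact .inr rfl

end Pool.Agent.H.MP_671186_gt
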